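import Pool.Agent.Helper185.TreFinal

/-!
If one of the six Borel tau-cover selection properties is hereditary, then the continuum
hypothesis fails.
-/

namespace Pool.Agent.Results.MP_d80832_gt.HereditaryRefutesCH

open Pool.Agent.Helper185.Sel

/-- If at least one of the six properties `S₁(B_T, B_Γ)`, `S₁(B_T, B_T)`, `S₁(B_T, B_Ω)`,
`S₁(B_T, B)`, `S_fin(B_T, B_T)`, `S_fin(B_T, B_Ω)` of sets of reals is hereditary, then the
continuum hypothesis fails. -/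
theorem result :
    ((∀ X Y : Set ℝ, Y ⊆ X → S1 (TauOf (BorelFam X)) (GammaOf (BorelFam X)) →
        S1 (TauOf (BorelFam Y)) (GammaOf (BorelFam Y))) ∨
      (∀ X Y : Set ℝ, Y ⊆ X → S1 (TauOf (BorelFam X)) (TauOf (BorelFam X)) →
        S1 (TauOf (BorelFam Y)) (TauOf (BorelFam Y))) ∨
      (∀ X Y : Set ℝ, Y ⊆ X → S1 (TauOf (BorelFam X)) (OmegaOf (BorelFam X)) →
        S1 (TauOf (BorelFam Y)) (OmegaOf (BorelFam Y))) ∨
      (∀ X Y : Set ℝ, Y ⊆ X → S1 (TauOf (BorelFam X)) (CovOf (BorelFam X)) →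
        S1 (TauOf (BorelFam Y)) (CovOf (BorelFam Y))) ∨
      (∀ X Y : Set ℝ, Y ⊆ X → Sfin (TauOf (BorelFam X)) (TauOf (BorelFam X)) →
        Sfin (TauOf (BorelFam Y)) (TauOf (BorelFam Y))) ∨
      (∀ X Y : Set ℝ, Y ⊆ X → Sfin (TauOf (BorelFam X)) (OmegaOf (BorelFam X)) →
        Sfin (TauOf (BorelFam Y)) (OmegaOf (BorelFam Y)))) →
      Cardinal.aleph 1 ≠ Cardinal.continuum.{0} := by
  intro h hCH
  obtain ⟨X, Y, hYX, ⟨x1, x2, x3, x4, x5, x6⟩, y1, y2, y3, y4, y5, y6⟩ :=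
    Pool.Agent.Helper185.Tre.six hCH
  rcases h with h | h | h | h | h | h
  · exact y1 (h X Y hYX x1)
  · exact y2 (h X Y hYX x2)
  · exact y3 (h X Y hYX x3)
  · exact y4 (h X Y hYX x4)
  · exact y5 (h X Y hYX x5)
  · exact y6 (h X Y hYX x6)

end Pool.Agent.Results.MP_d80832_gt.HereditaryRefutesCH
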