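import Pool.Agent.Helper185.TreFinal

/-!
Subsets and the six Borel tau-cover selection properties, from the continuum hypothesis.
-/

namespace Pool.Agent.Results.MP_d80832_gt.SubsetCH

open Pool.Agent.Helper185.Sel

/-- The continuum hypothesis gives sets of reals `Y ⊆ X` such that `X` satisfies all six
properties `S₁(B_T, B_Γ)`, `S₁(B_T, B_T)`, `S₁(B_T, B_Ω)`, `S₁(B_T, B)`, `S_fin(B_T, B_T)`,
`S_fin(B_T, B_Ω)` and `Y` satisfies none of them. -/
theorem result : Cardinal.aleph 1 = Cardinal.continuum.{0} →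
    ∃ X Y : Set ℝ, Y ⊆ X ∧
      (S1 (TauOf (BorelFam X)) (GammaOf (BorelFam X)) ∧
        S1 (TauOf (BorelFam X)) (TauOf (BorelFam X)) ∧
        S1 (TauOf (BorelFam X)) (OmegaOf (BorelFam X)) ∧
        S1 (TauOf (BorelFam X)) (CovOf (BorelFam X)) ∧
        Sfin (TauOf (BorelFam X)) (TauOf (BorelFam X)) ∧
        Sfin (TauOf (BorelFam X)) (OmegaOf (BorelFam X))) ∧
      ¬ S1 (TauOf (BorelFam Y)) (GammaOf (BorelFam Y)) ∧
      ¬ S1 (TauOf (BorelFam Y)) (TauOf (BorelFam Y)) ∧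
      ¬ S1 (TauOf (BorelFam Y)) (OmegaOf (BorelFam Y)) ∧
      ¬ S1 (TauOf (BorelFam Y)) (CovOf (BorelFam Y)) ∧
      ¬ Sfin (TauOf (BorelFam Y)) (TauOf (BorelFam Y)) ∧
      ¬ Sfin (TauOf (BorelFam Y)) (OmegaOf (BorelFam Y)) :=
  Pool.Agent.Helper185.Tre.six

end Pool.Agent.Results.MP_d80832_gt.SubsetCH
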